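import Pool.Agent.MVD.Stmts

set_option autoImplicit false

namespace Pool.Agent.Helper92_MVD

open Pool.Agent.Helper14_MV Pool.Agent.Helper2_MV Pool.Agent.MVD

/-- the word `z | l | x` -/
def Z (l : List ℕ) : List ℕ := [6, 2] ++ l ++ [5, 0]

/-- the letters of the middle block -/
def P4 : List ℕ := [0, 3, 3, 6]

theorem perm_mem {l : List ℕ} (h : l.Perm P4) : l ∈ P4.permutations' :=
  List.mem_permutations'.mpr h

theorem count_facts {l : List ℕ} (h : l.Perm P4) :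
    l.count 6 = 1 ∧ l.count 0 = 1 ∧ l.count 3 = 2 ∧ (∀ c ∈ l, c = 0 ∨ c = 3 ∨ c = 6) := by
  refine ⟨by rw [h.count_eq]; rfl, by rw [h.count_eq]; rfl, by rw [h.count_eq]; rfl, ?_⟩
  intro c hc
  have h1 := h.mem_iff.mp hc
  simpa [P4] using h1

/-- structure of the words equivalent to `z | l | x` -/
theorem blocks (hdec : DecStmt) (hkp2 : Kp2Stmt) (hkpl : KplStmt) {β : FIC} (h2 : Iso2 β)
    (h3 : Iso3 β) (hSQ : ¬ SQ β) {l w' : List ℕ} (hl : l.Perm P4) (h : RR β (Z l) w') :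
    ∃ l', l'.Perm P4 ∧ w' = Z l' := by
  obtain ⟨c6, c0, c3, call⟩ := count_facts hl
  obtain ⟨B, hB⟩ : ∃ B : ℕ → List ℕ, B = fun r => if r = 0 then [6] else if r = 1 then l else [0] :=
    ⟨_, rfl⟩
  have hB0 : B 0 = [6] := by rw [hB]; rfl
  have hB1 : B 1 = l := by rw [hB]; rfl
  have hB2 : B 2 = [0] := by rw [hB]; rfl
  have hbw : ∀ C : ℕ → List ℕ, Bw [0, 1, 2] C = C 0 ++ 2 :: (C 1 ++ 5 :: (C 2 ++ [8])) := by
    intro C
    simp [Bw]
  have hw : Bw [0, 1, 2] B = Z l ++ [8] := by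
    rw [hbw, hB0, hB1, hB2]
    simp [Z]
  have hr : RR β (Bw [0, 1, 2] B) (w' ++ [8]) := by
    rw [hw]
    exact h.append (RR.refl [8])
  have hsf : ∀ r ∈ [0, 1, 2], SFr (B r) := by
    intro r hr c hc
    simp only [List.mem_cons, List.not_mem_nil, or_false] at hr
    rcases hr with rfl | rfl | rfl
    · rw [hB0, List.mem_singleton] at hc
      omega
    · rw [hB1] at hc
      rcases call c hc with h | h | h <;> omega
    · rw [hB2, List.mem_singleton] at hc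
      omega
  obtain ⟨B', e, hB'sf, hesf, hw'⟩ := hdec β h3 [0, 1, 2] B (w' ++ [8]) (by decide) hsf hr
  have hr' : RR β (Bw [0, 1, 2] B) (Bw [0, 1, 2] B' ++ e) := by
    rw [← hw']
    exact hr
  have hsf' : ∀ r ∈ [0, 1, 2], SFr (B' r) := fun r _ => hB'sf r
  have he : e = [] := by
    rcases List.eq_nil_or_concat e with h1 | ⟨e', a, h1⟩
    · exact h1
    · exfalso
      rw [h1, List.concat_eq_append, ← List.append_assoc] at hw'
      have h4 := (List.append_inj' hw' rfl).2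
      have h5 : a = 8 := by
        simpa using h4.symm
      have h6 := hesf a (by rw [h1]; simp)
      rw [h5] at h6
      omega
  rw [he, List.append_nil, hbw] at hw'
  have hw2 : w' = B' 0 ++ 2 :: (B' 1 ++ 5 :: B' 2) := by
    have h4 : w' ++ [8] = (B' 0 ++ 2 :: (B' 1 ++ 5 :: B' 2)) ++ [8] := by
      rw [hw']
      simp [List.append_assoc]
    exact List.append_cancel_right h4
  have k6 := (hkp2 β h2 h3 [0, 1, 2] B B' e (by decide) hsf hsf' hesf hr' 6 0 1 (by decide)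
    (by decide) (by decide) (by decide) (by
      intro q hq
      simp only [List.mem_cons, List.not_mem_nil, or_false] at hq
      rcases hq with rfl | rfl | rfl
      · rw [hB0]; decide
      · rw [hB1, c6]; decide
      · rw [hB2]; decide)).1
  have k0 := (hkp2 β h2 h3 [0, 1, 2] B B' e (by decide) hsf hsf' hesf hr' 0 1 2 (by decide)
    (by decide) (by decide) (by decide) (by
      intro q hq
      simp only [List.mem_cons, List.not_mem_nil, or_false] at hq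
      rcases hq with rfl | rfl | rfl
      · rw [hB0]; decide
      · rw [hB1, c0]; decide
      · rw [hB2]; decide)).1
  have k3 : ∀ q ∈ [0, 1, 2], (B' q).count 3 = if q = 1 then 2 else 0 := by
    have h4 := hkpl β h2 h3 [0, 1, 2] B B' e (by decide) hsf hsf' hesf hr' 3 1 (by decide)
      (by decide) (by
        intro q hq
        simp only [List.mem_cons, List.not_mem_nil, or_false] at hq
        rcases hq with rfl | rfl | rfl
        · rw [hB0]; decide
        · rw [hB1, c3]; decide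
        · rw [hB2]; decide)
    rcases h4 with ⟨⟨s, hs, h5, h6⟩, _⟩ | ⟨_, _, h5⟩
    · rcases h6 with h6 | h6
      · rw [h6] at h5
        exact h5
      · exact absurd h6 hSQ
    · exact absurd h5 hSQ
  have kother : ∀ c, c ≠ 0 → c ≠ 3 → c ≠ 6 → ∀ q ∈ [0, 1, 2], (B' q).count c = 0 := by
    intro c h0 h3' h6 q hq
    apply List.count_eq_zero_of_not_mem
    intro hc
    have hmod := hB'sf q c hc
    have hnot : c ∉ Z l := by
      intro hc'
      simp only [Z, List.mem_append, List.mem_cons, List.not_mem_nil, or_false] at hc'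
      rcases hc' with (h4 | h4) | h4
      · omega
      · rcases call c h4 with h5 | h5 | h5 <;> omega
      · omega
    have h4 := h.content h3 hnot
    apply h4
    rw [hw2]
    simp only [List.mem_cons, List.not_mem_nil, or_false] at hq
    rcases hq with rfl | rfl | rfl
    · simp [hc]
    · simp [hc]
    · simp [hc]
  have e0 : B' 0 = [6] := by
    apply List.perm_singleton.mp
    rw [List.perm_iff_count]
    intro c
    by_cases hc6 : c = 6
    · rw [hc6, k6 0 (by decide)]; decide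
    · by_cases hc0 : c = 0
      · rw [hc0, k0 0 (by decide)]; decide
      · by_cases hc3 : c = 3
        · rw [hc3, k3 0 (by decide)]; decide
        · rw [kother c hc0 hc3 hc6 0 (by decide)]
          exact (List.count_eq_zero_of_not_mem (by simp [hc6])).symm
  have e2 : B' 2 = [0] := by
    apply List.perm_singleton.mp
    rw [List.perm_iff_count]
    intro c
    by_cases hc6 : c = 6
    · rw [hc6, k6 2 (by decide)]; decide
    · by_cases hc0 : c = 0
      · rw [hc0, k0 2 (by decide)]; decide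
      · by_cases hc3 : c = 3
        · rw [hc3, k3 2 (by decide)]; decide
        · rw [kother c hc0 hc3 hc6 2 (by decide)]
          exact (List.count_eq_zero_of_not_mem (by simp [hc0])).symm
  have e1 : (B' 1).Perm P4 := by
    rw [List.perm_iff_count]
    intro c
    by_cases hc6 : c = 6
    · rw [hc6, k6 1 (by decide)]; decide
    · by_cases hc0 : c = 0
      · rw [hc0, k0 1 (by decide)]; decide
      · by_cases hc3 : c = 3
        · rw [hc3, k3 1 (by decide)]; decide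
        · rw [kother c hc0 hc3 hc6 1 (by decide)]
          exact (List.count_eq_zero_of_not_mem (by simp [P4, hc0, hc3, hc6])).symm
  refine ⟨B' 1, e1, ?_⟩
  rw [hw2, e0, e2]
  simp [Z]

/-- order of `z`, `x` -/
def f1 (l : List ℕ) : List ℕ := l.filter (fun c => decide (c = 0 ∨ c = 6))
/-- pattern of `y`, `x` -/
def f2 (l : List ℕ) : List ℕ := l.filter (fun c => decide (c = 0 ∨ c = 3))
/-- pattern of `y`, `z` -/
def f3 (l : List ℕ) : List ℕ := l.filter (fun c => decide (c = 3 ∨ c = 6))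

/-- the data which are kept by the congruence -/
def dat (l : List ℕ) : Bool × Bool × Bool :=
  (decide (f1 l = [6, 0]), decide (f2 l = [0, 3, 3]), decide (f3 l = [3, 3, 6]))

theorem pats : ∀ l ∈ P4.permutations', (f1 l = [6, 0] ∨ f1 l = [0, 6]) ∧
    (f2 l = [0, 3, 3] ∨ f2 l = [3, 0, 3] ∨ f2 l = [3, 3, 0]) ∧
    (f3 l = [3, 3, 6] ∨ f3 l = [3, 6, 3] ∨ f3 l = [6, 3, 3]) := by decide +kernel

theorem filt1 (l : List ℕ) (hl : ∀ c ∈ l, c = 0 ∨ c = 3 ∨ c = 6) :
    (Z l).filter (fun c => decide (c ≠ 3)) = [6, 2] ++ f1 l ++ [5, 0] := by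
  unfold Z f1
  rw [List.filter_append, List.filter_append]
  have h1 : l.filter (fun c => decide (c ≠ 3)) = l.filter (fun c => decide (c = 0 ∨ c = 6)) := by
    refine List.filter_congr fun c hc => ?_
    rcases hl c hc with h | h | h <;> rw [h] <;> decide
  rw [h1]
  rfl

theorem filt2 (l : List ℕ) (hl : ∀ c ∈ l, c = 0 ∨ c = 3 ∨ c = 6) :
    (Z l).filter (fun c => decide (c ≠ 6 ∧ c ≠ 2)) = f2 l ++ [5, 0] := by
  unfold Z f2
  rw [List.filter_append, List.filter_append]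
  have h1 : l.filter (fun c => decide (c ≠ 6 ∧ c ≠ 2))
      = l.filter (fun c => decide (c = 0 ∨ c = 3)) := by
    refine List.filter_congr fun c hc => ?_
    rcases hl c hc with h | h | h <;> rw [h] <;> decide
  rw [h1]
  rfl

theorem filt3 (l : List ℕ) (hl : ∀ c ∈ l, c = 0 ∨ c = 3 ∨ c = 6) :
    (Z l).filter (fun c => decide (c ≠ 0 ∧ c ≠ 5)) = [6, 2] ++ f3 l := by
  unfold Z f3
  rw [List.filter_append, List.filter_append]
  have h1 : l.filter (fun c => decide (c ≠ 0 ∧ c ≠ 5))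
      = l.filter (fun c => decide (c = 3 ∨ c = 6)) := by
    refine List.filter_congr fun c hc => ?_
    rcases hl c hc with h | h | h <;> rw [h] <;> decide
  rw [h1]
  simp

/-- substitution which renames letters -/
def ren (a : ℕ → ℕ) : ℕ → List ℕ := fun c => [a c]

theorem keep1 {β : FIC} (hS2 : ¬ S2 β) {l l' : List ℕ} (hl : l.Perm P4) (hl' : l'.Perm P4)
    (h : RR β (Z l) (Z l')) : f1 l = [6, 0] → f1 l' = [6, 0] := by
  intro h1
  rcases (pats l' (perm_mem hl')).1 with h2 | h2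
  · exact h2
  · exfalso
    have h3 := h.filter (fun c => decide (c ≠ 3))
    rw [filt1 l (count_facts hl).2.2.2, filt1 l' (count_facts hl').2.2.2, h1, h2] at h3
    have h4 := h3.sub (ren (fun c => if c = 6 then 0 else if c = 0 then 3 else c))
    exact hS2 h4

theorem keep2 {β : FIC} (hA2 : A2 β) (hA1 : ¬ A1 β) {l l' : List ℕ} (hl : l.Perm P4)
    (hl' : l'.Perm P4) (h : RR β (Z l) (Z l')) : f2 l = [0, 3, 3] → f2 l' = [0, 3, 3] := by
  intro h1
  have h3 := h.filter (fun c => decide (c ≠ 6 ∧ c ≠ 2))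
  rw [filt2 l (count_facts hl).2.2.2, filt2 l' (count_facts hl').2.2.2, h1] at h3
  have h4 := h3.sub (ren (fun c => if c = 5 then 2 else c))
  rcases (pats l' (perm_mem hl')).2.1 with h2 | h2 | h2
  · exact h2
  · exfalso
    rw [h2] at h4
    exact hA1 (RR.symm h4)
  · exfalso
    rw [h2] at h4
    exact hA1 (β.trans hA2 (RR.symm h4))

theorem keep3 {β : FIC} (hB2 : B2 β) (hB3 : ¬ B3 β) {l l' : List ℕ} (hl : l.Perm P4)
    (hl' : l'.Perm P4) (h : RR β (Z l) (Z l')) : f3 l = [3, 3, 6] → f3 l' = [3, 3, 6] := by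
  intro h1
  have h3 := h.filter (fun c => decide (c ≠ 0 ∧ c ≠ 5))
  rw [filt3 l (count_facts hl).2.2.2, filt3 l' (count_facts hl').2.2.2, h1] at h3
  have h4 := h3.sub (ren (fun c => if c = 6 then 0 else c))
  rcases (pats l' (perm_mem hl')).2.2 with h2 | h2 | h2
  · exact h2
  · exfalso
    rw [h2] at h4
    exact hB3 (RR.symm h4)
  · exfalso
    rw [h2] at h4
    exact hB3 (β.trans hB2 (RR.symm h4))

theorem keep_dat {β : FIC} (hS2 : ¬ S2 β) (hA2 : A2 β) (hB2 : B2 β) (hA1 : ¬ A1 β)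
    (hB3 : ¬ B3 β) {l l' : List ℕ} (hl : l.Perm P4) (hl' : l'.Perm P4)
    (h : RR β (Z l) (Z l')) : dat l = dat l' := by
  have e1 : f1 l = [6, 0] ↔ f1 l' = [6, 0] :=
    ⟨keep1 hS2 hl hl' h, keep1 hS2 hl' hl (RR.symm h)⟩
  have e2 : f2 l = [0, 3, 3] ↔ f2 l' = [0, 3, 3] :=
    ⟨keep2 hA2 hA1 hl hl' h, keep2 hA2 hA1 hl' hl (RR.symm h)⟩
  have e3 : f3 l = [3, 3, 6] ↔ f3 l' = [3, 3, 6] :=
    ⟨keep3 hB2 hB3 hl hl' h, keep3 hB2 hB3 hl' hl (RR.symm h)⟩
  unfold dat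
  rw [decide_eq_decide.mpr e1, decide_eq_decide.mpr e2, decide_eq_decide.mpr e3]

def TA : List (List ℕ) := [[3, 0, 6, 3]]
def TB : List (List ℕ) := [[3, 0, 6, 3], [6, 3, 0, 3], [6, 3, 3, 0], [3, 6, 3, 0], [3, 6, 0, 3]]
def TC : List (List ℕ) := [[3, 0, 6, 3], [0, 6, 3, 3], [0, 3, 6, 3]]

/-- `T` is a set of arrangements which is a union of classes of the data -/
def Cl (T : List (List ℕ)) : Prop :=
  (∀ l ∈ T, l ∈ P4.permutations') ∧
    ∀ l ∈ P4.permutations', ∀ l' ∈ P4.permutations', dat l = dat l' → l ∈ T → l' ∈ T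

theorem clA : Cl TA := by unfold Cl; decide +kernel
theorem clB : Cl TB := by unfold Cl; decide +kernel
theorem clC : Cl TC := by unfold Cl; decide +kernel

theorem keepT (hdec : DecStmt) (hkp2 : Kp2Stmt) (hkpl : KplStmt) {β : FIC} (h2 : Iso2 β)
    (h3 : Iso3 β) (hSQ : ¬ SQ β) (hS2 : ¬ S2 β) (hA2 : A2 β) (hB2 : B2 β) (hA1 : ¬ A1 β)
    (hB3 : ¬ B3 β) {T : List (List ℕ)} (hT : Cl T) (w w' : List ℕ) (h : RR β w w')
    (hw : w ∈ T.map Z) : w' ∈ T.map Z := by
  obtain ⟨l, hl, rfl⟩ := List.mem_map.mp hw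
  have hlp : l.Perm P4 := List.mem_permutations'.mp (hT.1 l hl)
  obtain ⟨l', hl', rfl⟩ := blocks hdec hkp2 hkpl h2 h3 hSQ hlp h
  refine List.mem_map.mpr ⟨l', ?_, rfl⟩
  exact hT.2 l (perm_mem hlp) l' (perm_mem hl') (keep_dat hS2 hA2 hB2 hA1 hB3 hlp hl' h) hl

theorem chkA1 : chkP [3, 0, 3, 2, 0] [0, 3, 3, 2, 0] (TA.map Z) = true := by decide +kernel
theorem chkA1' : chkP [0, 3, 3, 2, 0] [3, 0, 3, 2, 0] (TA.map Z) = true := by decide +kernel
theorem chkB1 : chkP [0, 2, 0, 3, 5, 3] [0, 2, 3, 0, 5, 3] (TB.map Z) = true := by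
  decide +kernel
theorem chkB1' : chkP [0, 2, 3, 0, 5, 3] [0, 2, 0, 3, 5, 3] (TB.map Z) = true := by
  decide +kernel
theorem chkC1 : chkP (Z [0, 3, 6, 3]) (Z [3, 0, 6, 3]) (TC.map Z) = true := by decide +kernel
theorem chkC1' : chkP (Z [3, 0, 6, 3]) (Z [0, 3, 6, 3]) (TC.map Z) = true := by decide +kernel

theorem gclosed (hfin : FinStmt) {u v : List ℕ} {T : List (List ℕ)} (h1 : ∀ a ∈ v, a ∈ u)
    (h2 : ∀ a ∈ u, a ∈ v) (c1 : chkP u v T = true) (c2 : chkP v u T = true) :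
    ∀ e : List ℕ × List ℕ, e = (u, v) → ∀ (φ : ℕ → List ℕ) (M N : List ℕ),
      (M ++ (e.1.flatMap φ ++ N) ∈ T ↔ M ++ (e.2.flatMap φ ++ N) ∈ T) := by
  intro e he φ M N
  subst he
  exact ⟨hfin u v T h1 c1 φ M N, hfin v u T h2 c2 φ M N⟩

theorem nt4 (hfin : FinStmt) (hpen : PenStmt) (hgen : GenStmt) (hdec : DecStmt)
    (hkp2 : Kp2Stmt) (hkpl : KplStmt) (hctx : CtxStmt) (hcty : CtyStmt) : Nt4Stmt := by
  intro β hM h2 h3 hS2 hA2 hB2
  by_contra hcon
  rw [not_or] at hcon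
  obtain ⟨hA1, hB3⟩ := hcon
  have hSQ : ¬ SQ β := by
    intro hSQ
    have h4 := (hcty β).2.2.2.2 hSQ [] [0] [2, 0] 3
    exact hA1 (β.trans hA2 h4)
  obtain ⟨ρ, hρ1, hρ2, hρ3, hρ4⟩ := hgen β (fun e => e = ([3, 0, 3, 2, 0], [0, 3, 3, 2, 0]))
  obtain ⟨σ, hσ1, hσ2, hσ3, hσ4⟩ :=
    hgen β (fun e => e = ([0, 2, 0, 3, 5, 3], [0, 2, 3, 0, 5, 3]))
  obtain ⟨τ, hτ1, hτ2, hτ3, hτ4⟩ := hgen β (fun e => e = (Z [0, 3, 6, 3], Z [3, 0, 6, 3]))
  have hA1ρ : A1 ρ := hρ2 _ rfl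
  have hS2σ : S2 σ := hσ2 _ rfl
  have hτr : RR τ (Z [0, 3, 6, 3]) (Z [3, 0, 6, 3]) := hτ2 _ rfl
  have hρτ : ρ ≤ τ := by
    refine hρ3 τ hτ1 ?_
    intro e he
    subst he
    have h4 := hτr.sub (fun c => if c = 6 then [] else if c = 2 then [] else
      if c = 5 then [2] else [c])
    exact RR.symm h4
  have hkA := hρ4 (fun w => w ∈ TA.map Z)
    (keepT hdec hkp2 hkpl h2 h3 hSQ hS2 hA2 hB2 hA1 hB3 clA)
    (gclosed hfin (by decide) (by decide) chkA1 chkA1')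
  have hkB := hσ4 (fun w => w ∈ TB.map Z)
    (keepT hdec hkp2 hkpl h2 h3 hSQ hS2 hA2 hB2 hA1 hB3 clB)
    (gclosed hfin (by decide) (by decide) chkB1 chkB1')
  have hkC := hτ4 (fun w => w ∈ TC.map Z)
    (keepT hdec hkp2 hkpl h2 h3 hSQ hS2 hA2 hB2 hA1 hB3 clC)
    (gclosed hfin (by decide) (by decide) chkC1 chkC1')
  refine hpen β hM ρ σ τ (fun w => w ∈ TA.map Z) (fun w => w ∈ TB.map Z)
    (fun w => w ∈ TC.map Z) hρ1 hσ1 hτ1 hρτ hkA hkB hkC ?_ ?_ (Z [3, 0, 6, 3])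
    (Z [0, 3, 6, 3]) (by decide) (by decide) (RR.symm hτr) ?_
  · intro w hw
    have h4 : ∀ w ∈ TA.map Z, w ∈ TB.map Z ∧ w ∈ TC.map Z := by decide +kernel
    exact h4 w hw
  · intro w hwB hwC
    have h4 : ∀ w ∈ TB.map Z, w ∈ TC.map Z → w ∈ TA.map Z := by decide +kernel
    exact h4 w hwB hwC
  · have l1 : ∀ {u v : List ℕ}, RR ρ u v → RR (FIC.sup ρ σ) u v :=
      fun h => FIC.le_sup_left ρ σ _ _ h
    have l2 : ∀ {u v : List ℕ}, RR σ u v → RR (FIC.sup ρ σ) u v :=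
      fun h => FIC.le_sup_right ρ σ _ _ h
    have tr : ∀ {u v w : List ℕ}, RR (FIC.sup ρ σ) u v → RR (FIC.sup ρ σ) v w →
        RR (FIC.sup ρ σ) u w := fun h h' => (FIC.sup ρ σ).trans h h'
    -- w1 = z|xyzy|x ~ z|xzyy|x
    have s1 : RR (FIC.sup ρ σ) (Z [0, 3, 6, 3]) (Z [0, 6, 3, 3]) :=
      l1 (hρ1 _ _ ((hcty β).2.2.1 hB2 [6, 2, 0] [5, 0] 6 3 (by decide)))
    have s2 : RR (FIC.sup ρ σ) (Z [6, 0, 3, 3]) (Z [0, 6, 3, 3]) :=
      l2 ((hctx σ).2.1 hS2σ [6, 2] [3, 3, 5, 0] 6 0 (by decide) (by decide))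
    have s3 : RR (FIC.sup ρ σ) (Z [6, 3, 0, 3]) (Z [6, 0, 3, 3]) :=
      l1 ((hcty ρ).1 hA1ρ [6, 2, 6] [5, 0] 0 3 (by decide))
    have s4 : RR (FIC.sup ρ σ) (Z [6, 3, 0, 3]) (Z [3, 6, 0, 3]) :=
      l2 ((hctx σ).2.1 hS2σ [6, 2] [0, 3, 5, 0] 6 3 (by decide) (by decide))
    have s5 : RR (FIC.sup ρ σ) (Z [3, 6, 0, 3]) (Z [3, 0, 6, 3]) :=
      l2 ((hctx σ).2.1 hS2σ [6, 2, 3] [3, 5, 0] 6 0 (by decide) (by decide))
    exact RR.symm (tr s1 (tr (RR.symm s2) (tr (RR.symm s3) (tr s4 s5))))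

end Pool.Agent.Helper92_MVD
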